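import Mathlib

/-!
# Two cover games are not equivalent for player Two

For the cofinite topology on `ω₁`, the ideal base of initial segments and a suitable family `ℬ`,
player Two has a winning Markov strategy in `G₁(𝒩[𝒜], ¬Γ(X,ℬ))` and no winning strategy at all in
`G₁(𝒩[𝒜], ¬𝒪(X,ℬ))`.
-/

open Set
open scoped Cardinal

namespace Pool.Agent.Results.MP_953c35_gt.CoverGames

section Defs

variable {X : Type} [TopologicalSpace X]

/-- `𝒜` is an ideal base (nonempty and directed under inclusion of unions). -/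
def IsIdealBase (𝒜 : Set (Set X)) : Prop :=
  𝒜.Nonempty ∧ ∀ A₁ ∈ 𝒜, ∀ A₂ ∈ 𝒜, ∃ A₃ ∈ 𝒜, A₁ ∪ A₂ ⊆ A₃

/-- The convention of the problem: every member of `𝒜` lies in an open set different from `X`. -/
def InProperOpen (𝒜 : Set (Set X)) : Prop :=
  ∀ A ∈ 𝒜, ∃ U : Set X, IsOpen U ∧ A ⊆ U ∧ U ≠ univ

/-- `𝒪(X,ℬ)`: the open covers `𝒰` of `X` with `X ∉ 𝒰` such that every `B ∈ ℬ` is contained in
some member of `𝒰`. -/
def OCov (ℬ : Set (Set X)) : Set (Set (Set X)) :=
  {𝒰 | (∀ U ∈ 𝒰, IsOpen U) ∧ ⋃₀ 𝒰 = univ ∧ univ ∉ 𝒰 ∧ ∀ B ∈ ℬ, ∃ U ∈ 𝒰, B ⊆ U}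

/-- `Γ(X,ℬ)`: the infinite open covers `𝒰` of `X` with `X ∉ 𝒰` such that for every `B ∈ ℬ` all
but finitely many members of `𝒰` contain `B`. -/
def GammaCov (ℬ : Set (Set X)) : Set (Set (Set X)) :=
  {𝒰 | 𝒰.Infinite ∧ (∀ U ∈ 𝒰, IsOpen U) ∧ ⋃₀ 𝒰 = univ ∧ univ ∉ 𝒰 ∧
    ∀ B ∈ ℬ, {U | U ∈ 𝒰 ∧ ¬ B ⊆ U}.Finite}

/-- The answer `U` of Two to the move `A` of One is legal. -/
def Legal (A U : Set X) : Prop := IsOpen U ∧ A ⊆ U ∧ U ≠ univ

/-- Two has a winning (full information) strategy in `G₁(𝒩[𝒜], ¬𝒢)`. A strategy assigns to each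
finite sequence `(A₀,…,Aₙ)` of moves of One an answer. -/
def TwoWins (𝒜 : Set (Set X)) (𝒢 : Set (Set (Set X))) : Prop :=
  ∃ σ : (n : ℕ) → (Fin (n + 1) → Set X) → Set X,
    (∀ (n : ℕ) (a : Fin (n + 1) → Set X), (∀ i, a i ∈ 𝒜) → Legal (a (Fin.last n)) (σ n a)) ∧
    ∀ A : ℕ → Set X, (∀ n, A n ∈ 𝒜) →
      range (fun n : ℕ => σ n (fun i : Fin (n + 1) => A i)) ∉ 𝒢

/-- Two has a winning Markov strategy in `G₁(𝒩[𝒜], ¬𝒢)`: the answer depends only on the last
move of One and the number of the inning. -/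
def TwoWinsMarkov (𝒜 : Set (Set X)) (𝒢 : Set (Set (Set X))) : Prop :=
  ∃ μ : ℕ → Set X → Set X,
    (∀ (n : ℕ), ∀ A ∈ 𝒜, Legal A (μ n A)) ∧
    ∀ A : ℕ → Set X, (∀ n, A n ∈ 𝒜) → range (fun n : ℕ => μ n (A n)) ∉ 𝒢

/-- The games `G₁(𝒩[𝒜], ¬𝒢)` and `G₁(𝒩[𝒜], ¬ℋ)` are equivalent for player Two. -/
def EquivForTwo (𝒜 : Set (Set X)) (𝒢 ℋ : Set (Set (Set X))) : Prop :=
  (TwoWins 𝒜 𝒢 ↔ TwoWins 𝒜 ℋ) ∧ (TwoWinsMarkov 𝒜 𝒢 ↔ TwoWinsMarkov 𝒜 ℋ)

lemma twoWins_of_markov {𝒜 : Set (Set X)} {𝒢 : Set (Set (Set X))}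
    (h : TwoWinsMarkov 𝒜 𝒢) : TwoWins 𝒜 𝒢 := by
  obtain ⟨μ, h1, h2⟩ := h
  refine ⟨fun n a => μ n (a (Fin.last n)), fun n a ha => h1 n _ (ha _), fun A hA => ?_⟩
  simpa using h2 A hA

end Defs

/-! ### The cofinite topology on `ω₁` -/

/-- The cofinite topology. -/
@[instance_reducible] def cofTop (W : Type) : TopologicalSpace W where
  IsOpen s := s = ∅ ∨ sᶜ.Finite
  isOpen_univ := Or.inr (by simp)
  isOpen_inter := by
    rintro s t (rfl | hs) (rfl | ht)
    · left; simp
    · left; simp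
    · left; simp
    · right
      rw [compl_inter]
      exact hs.union ht
  isOpen_sUnion := by
    intro S hS
    by_cases h : ∃ s ∈ S, s.Nonempty
    · obtain ⟨s, hs, hne⟩ := h
      right
      rcases hS s hs with h0 | h1
      · exact absurd h0 hne.ne_empty
      · exact h1.subset (compl_subset_compl.2 (subset_sUnion_of_mem hs))
    · left
      push Not at h
      rw [sUnion_eq_empty]
      exact fun s hs => h s hs

lemma t1_cofTop (W : Type) : @T1Space W (cofTop W) := by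
  let _ := cofTop W
  refine ⟨fun x => ⟨?_⟩⟩
  right
  rw [compl_compl]
  exact finite_singleton x

lemma exists_omega_one : ∃ (W : Type) (_ : LinearOrder W) (_ : WellFoundedLT W),
    (∀ x : W, (Iio x).Countable) ∧ Uncountable W := by
  refine ⟨(ℵ₁ : Cardinal.{0}).ord.ToType, inferInstance, inferInstance, ?_, ?_⟩
  · intro x
    rw [← Cardinal.le_aleph0_iff_set_countable]
    have : #(Iio x) < #((ℵ₁ : Cardinal.{0}).ord.ToType) := Cardinal.mk_Iio_lt x (by simp)
    rw [Cardinal.mk_ord_toType] at this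
    exact Cardinal.lt_aleph_one_iff.mp this
  · rw [← Cardinal.aleph0_lt_mk_iff, Cardinal.mk_ord_toType]
    exact Cardinal.aleph0_lt_aleph_one

section Main

variable {W : Type} [LinearOrder W]

/-- countable sets are strictly bounded -/
lemma bdd (hc : ∀ x : W, (Iio x).Countable) (hu : Uncountable W) {S : Set W}
    (hS : S.Countable) : ∃ x, ∀ s ∈ S, s < x := by
  by_contra hcon
  push Not at hcon
  have : (univ : Set W) ⊆ ⋃ s ∈ S, (Iio s ∪ {s}) := by
    intro x _
    obtain ⟨s, hs, hx⟩ := hcon x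
    simp only [mem_iUnion, mem_union, mem_Iio, mem_singleton_iff]
    exact ⟨s, hs, hx.lt_or_eq⟩
  have h2 : (⋃ s ∈ S, (Iio s ∪ {s})).Countable :=
    hS.biUnion fun s _ => (hc s).union (countable_singleton s)
  exact (not_countable_univ_iff.2 hu) (h2.mono this)

/-- the block functions -/
lemma exists_block (hc : ∀ x : W, (Iio x).Countable) : ∃ b : W → W → ℕ,
    (∀ δ ξ η : W, ξ ≤ η → η < δ → b δ ξ ≤ b δ η) ∧
    (∀ δ : W, ∀ i : ℕ, (∃ ξ, ξ < δ) → ∃ γ, γ < δ ∧ ∀ ξ, γ < ξ → ξ < δ → i < b δ ξ) := by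
  have key : ∀ δ : W, ∃ f : W → ℕ,
      (∀ ξ η : W, ξ ≤ η → η < δ → f ξ ≤ f η) ∧
      (∀ i : ℕ, (∃ ξ, ξ < δ) → ∃ γ, γ < δ ∧ ∀ ξ, γ < ξ → ξ < δ → i < f ξ) := by
    intro δ
    by_cases hne : ∃ ξ, ξ < δ
    · obtain ⟨e, he⟩ := (hc δ).exists_eq_range hne
      have hlt : ∀ n, e n < δ := fun n => by
        have : e n ∈ Iio δ := he ▸ mem_range_self n
        exact this
      classical
      -- the running maxima
      let g : ℕ → W := fun i => (Finset.range (i + 1)).sup' ⟨0, by simp⟩ e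
      have hg : ∀ i, g i < δ := fun i => (Finset.sup'_lt_iff _).2 fun n _ => hlt n
      have hgm : ∀ i j, i ≤ j → g i ≤ g j := by
        intro i j hij
        exact Finset.sup'_mono _ (Finset.range_subset_range.2 (by omega)) _
      have hge : ∀ i, e i ≤ g i := fun i => Finset.le_sup' e (by simp)
      have hex : ∀ ξ, ξ < δ → ∃ i, ξ ≤ g i := by
        intro ξ hξ
        have : ξ ∈ range e := he ▸ hξ
        obtain ⟨i, rfl⟩ := this
        exact ⟨i, hge i⟩
      refine ⟨fun ξ => if h : ∃ i, ξ ≤ g i then Nat.find h else 0, ?_, ?_⟩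
      · intro ξ η hξη hη
        have h1 := hex ξ (hξη.trans_lt hη)
        have h2 := hex η hη
        simp only [h1, h2, dif_pos]
        exact Nat.find_min' _ (hξη.trans (Nat.find_spec h2))
      · intro i _
        refine ⟨g i, hg i, fun ξ h1 h2 => ?_⟩
        have h3 := hex ξ h2
        simp only [h3, dif_pos]
        by_contra hle
        push Not at hle
        have := Nat.find_spec h3
        exact absurd (this.trans (hgm _ _ hle)) (not_le.2 h1)
    · exact ⟨fun _ => 0, fun _ _ _ _ => le_rfl, fun _ h => absurd h hne⟩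
  choose b hb1 hb2 using key
  exact ⟨b, fun δ => hb1 δ, fun δ => hb2 δ⟩

/-- The family `ℬ` attached to the block functions. -/
def famB (b : W → W → ℕ) : Set (Set W) :=
  {B | ∃ δ, B ⊆ Iio δ ∧ InjOn (b δ) B}

/-- The ideal base of initial segments. -/
def famA (W : Type) [LinearOrder W] : Set (Set W) := range (fun a : W => Iio a)

/-- Every infinite subset of `W` meets some member of `famB b` in an infinite set. -/
lemma tall [WellFoundedLT W] (hc : ∀ x : W, (Iio x).Countable) (hu : Uncountable W) {b : W → W → ℕ}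
    (hb2 : ∀ δ : W, ∀ i : ℕ, (∃ ξ, ξ < δ) → ∃ γ, γ < δ ∧ ∀ ξ, γ < ξ → ξ < δ → i < b δ ξ)
    {D : Set W} (hD : D.Infinite) : ∃ B ∈ famB b, B ⊆ D ∧ B.Infinite := by
  obtain ⟨f, hfi, hfD⟩ : ∃ f : ℕ → W, Function.Injective f ∧ ∀ n, f n ∈ D := by
    refine ⟨fun n => (hD.natEmbedding D n : W), ?_, fun n => (hD.natEmbedding D n).2⟩
    intro a c h
    exact (hD.natEmbedding D).injective (Subtype.ext h)
  obtain ⟨g, hg⟩ := exists_increasing_or_nonincreasing_subseq (· < ·) f
  have hmono : StrictMono (fun n => f (g n)) := by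
    rcases hg with hg | hg
    · exact fun m n h => hg m n h
    · exfalso
      have hanti : ∀ m n, m < n → f (g n) < f (g m) := by
        intro m n h
        have h1 := not_lt.1 (hg m n h)
        refine lt_of_le_of_ne h1 fun he => ?_
        have := g.injective (hfi he)
        omega
      have hwf : WellFounded ((· < ·) : W → W → Prop) := wellFounded_lt
      have := RelEmbedding.natGT (r := ((· < ·) : W → W → Prop)) (fun n => f (g n))
        (fun n => hanti n (n + 1) (Nat.lt_succ_self n))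
      exact (RelEmbedding.wellFounded_iff_isEmpty.1 hwf).false this
  set m : ℕ → W := fun n => f (g n) with hm
  -- the least strict upper bound
  obtain ⟨x₀, hx₀⟩ := bdd hc hu (countable_range m)
  let δ := WellFounded.min (wellFounded_lt (α := W)) {x | ∀ n, m n < x}
    ⟨x₀, fun n => hx₀ _ (mem_range_self n)⟩
  have hδ : ∀ n, m n < δ := WellFounded.min_mem (wellFounded_lt (α := W)) {x | ∀ n, m n < x} _
  have hδmin : ∀ γ, γ < δ → ∃ n, γ ≤ m n := by
    intro γ hγ
    by_contra hcon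
    push Not at hcon
    exact WellFounded.not_lt_min (wellFounded_lt (α := W)) {x | ∀ n, m n < x}
      (show γ ∈ {x | ∀ n, m n < x} from hcon) hγ
  have htend : Filter.Tendsto (fun n => b δ (m n)) Filter.atTop Filter.atTop := by
    rw [Filter.tendsto_atTop_atTop]
    intro i
    obtain ⟨γ, hγ, hγ2⟩ := hb2 δ i ⟨m 0, hδ 0⟩
    obtain ⟨n, hn⟩ := hδmin γ hγ
    refine ⟨n + 1, fun a ha => (hγ2 _ ?_ (hδ a)).le⟩
    exact hn.trans_lt (hmono (by omega))
  obtain ⟨φ, hφ, hφ2⟩ := Filter.strictMono_subseq_of_tendsto_atTop htend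
  refine ⟨range (m ∘ φ), ⟨δ, ?_, ?_⟩, ?_, ?_⟩
  · rintro _ ⟨n, rfl⟩
    exact hδ _
  · rintro _ ⟨n, rfl⟩ _ ⟨k, rfl⟩ h
    have : n = k := hφ2.injective h
    rw [this]
  · rintro _ ⟨n, rfl⟩
    exact hfD _
  · exact infinite_range_of_injective (hmono.injective.comp hφ.injective)

/-- The response of Two to `A = {x : x < a}`: the complement of `{a}`. -/
def resp (A : Set W) : Set W := {x | x ∈ A ∨ ∃ y, y ∉ A ∧ y < x}

lemma resp_Iio (a : W) : resp (Iio a) = {a}ᶜ := by
  ext x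
  simp only [resp, mem_Iio, not_lt, mem_ofPred_eq, mem_compl_iff, mem_singleton_iff]
  constructor
  · rintro (h | ⟨y, h1, h2⟩)
    · exact h.ne
    · exact (h1.trans_lt h2).ne'
  · intro h
    rcases lt_or_gt_of_ne h with h | h
    · exact Or.inl h
    · exact Or.inr ⟨a, le_rfl, h⟩

/-- Two has a winning Markov strategy in the first game. -/
lemma gamma_win [WellFoundedLT W] (hc : ∀ x : W, (Iio x).Countable) (hu : Uncountable W)
    {b : W → W → ℕ}
    (hb2 : ∀ δ : W, ∀ i : ℕ, (∃ ξ, ξ < δ) → ∃ γ, γ < δ ∧ ∀ ξ, γ < ξ → ξ < δ → i < b δ ξ) :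
    @TwoWinsMarkov W (cofTop W) (famA W) (@GammaCov W (cofTop W) (famB b)) := by
  let _ := cofTop W
  refine ⟨fun _ A => resp A, ?_, ?_⟩
  · rintro n _ ⟨a, rfl⟩
    simp only [resp_Iio]
    refine ⟨Or.inr ?_, ?_, ?_⟩
    · rw [compl_compl]; exact finite_singleton a
    · intro x hx
      simp only [mem_Iio] at hx
      exact hx.ne
    · intro h
      have : a ∈ ({a}ᶜ : Set W) := h ▸ mem_univ a
      exact this rfl
  · intro A hA hG
    choose a ha using hA
    obtain ⟨hinf, -, -, -, hfin⟩ := hG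
    have hA' : ∀ n, resp (A n) = {a n}ᶜ := fun n => by rw [← ha n]; exact resp_Iio (a n)
    have hD : (range a).Infinite := by
      intro hfin
      apply hinf
      refine (hfin.image (fun x => ({x}ᶜ : Set W))).subset ?_
      rintro _ ⟨n, rfl⟩
      exact ⟨a n, mem_range_self n, (hA' n).symm⟩
    obtain ⟨B, hB, hBD, hBinf⟩ := tall hc hu hb2 hD
    have h1 := hfin B hB
    have h2 : (fun x => ({x}ᶜ : Set W)) '' B ⊆
        {U | U ∈ range (fun n : ℕ => resp (A n)) ∧ ¬ B ⊆ U} := by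
      rintro _ ⟨x, hx, rfl⟩
      obtain ⟨n, rfl⟩ := hBD hx
      exact ⟨⟨n, hA' n⟩, fun h => h hx rfl⟩
    have h3 : ((fun x => ({x}ᶜ : Set W)) '' B).Infinite := by
      refine hBinf.image ?_
      intro x _ y _ h
      exact singleton_injective (compl_injective h)
    exact h3 (h1.subset h2)

/-- Two has no winning strategy in the second game. -/
lemma no_win [WellFoundedLT W] (hc : ∀ x : W, (Iio x).Countable) (hu : Uncountable W)
    {b : W → W → ℕ}
    (hb1 : ∀ δ ξ η : W, ξ ≤ η → η < δ → b δ ξ ≤ b δ η) :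
    ¬ @TwoWins W (cofTop W) (famA W) (@OCov W (cofTop W) (famB b)) := by
  let _ := cofTop W
  rintro ⟨σ, hleg, hwin⟩
  -- the closed answers of Two
  let F : (n : ℕ) → (Fin (n + 1) → W) → Set W := fun n a => (σ n (fun i => Iio (a i)))ᶜ
  have hleg' : ∀ n (a : Fin (n + 1) → W),
      Legal (Iio (a (Fin.last n))) (σ n (fun i => Iio (a i))) :=
    fun n a => hleg n (fun i => Iio (a i)) (fun i => ⟨a i, rfl⟩)
  have hFge : ∀ n (a : Fin (n + 1) → W), ∀ x ∈ F n a, a (Fin.last n) ≤ x := by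
    intro n a x hx
    by_contra h
    push Not at h
    exact hx ((hleg' n a).2.1 h)
  have hFfin : ∀ n (a : Fin (n + 1) → W), (∃ z, z < a (Fin.last n)) → (F n a).Finite := by
    rintro n a ⟨z, hz⟩
    rcases (hleg' n a).1 with h | h
    · exfalso
      have : z ∈ σ n (fun i => Iio (a i)) := (hleg' n a).2.1 hz
      rw [h] at this
      exact this
    · exact h
  -- points closed under the strategy
  let Cl : W → Prop := fun c => (∃ z, z < c) ∧ (∀ x, x < c → ∃ y, x < y ∧ y < c) ∧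
    ∀ n (a : Fin (n + 1) → W), (∀ i, a i < c) → (∃ z, z < a (Fin.last n)) →
      ∀ x ∈ F n a, x < c
  have hCl : ∀ x : W, ∃ c, x < c ∧ Cl c := by
    intro x
    -- one step
    have step : ∀ u : W, ∃ v, u < v ∧ ∀ n (a : Fin (n + 1) → W), (∀ i, a i < u) →
        (∃ z, z < a (Fin.last n)) → ∀ x ∈ F n a, x < v := by
      intro u
      have hcount : ((⋃ n : ℕ, ⋃ a ∈ {a : Fin (n + 1) → W | (∀ i, a i < u) ∧
          (∃ z, z < a (Fin.last n))}, F n a) ∪ {u}).Countable := by
        refine Countable.union ?_ (countable_singleton u)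
        refine countable_iUnion fun n => Countable.biUnion ?_ ?_
        · have : {a : Fin (n + 1) → W | (∀ i, a i < u) ∧ (∃ z, z < a (Fin.last n))} ⊆
              Set.pi univ (fun _ : Fin (n + 1) => Iio u) := by
            intro a ha i _
            exact ha.1 i
          exact (Set.countable_univ_pi fun _ => hc u).mono this
        · intro a ha
          exact (hFfin n a ha.2).countable
      obtain ⟨v, hv⟩ := bdd hc hu hcount
      refine ⟨v, hv u (Or.inr rfl), fun n a ha hz x hx => hv x (Or.inl ?_)⟩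
      simp only [mem_iUnion]
      exact ⟨n, a, ⟨ha, hz⟩, hx⟩
    choose g hg1 hg2 using step
    let c : ℕ → W := fun k => g^[k + 1] x
    have hcs : ∀ k, c (k + 1) = g (c k) := fun k => Function.iterate_succ_apply' g (k + 1) x
    have hcm : StrictMono c := strictMono_nat_of_lt_succ fun k => by rw [hcs]; exact hg1 _
    have hc0 : x < c 0 := hg1 x
    obtain ⟨x₀, hx₀⟩ := bdd hc hu (countable_range c)
    let δ := WellFounded.min (wellFounded_lt (α := W)) {x | ∀ n, c n < x}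
      ⟨x₀, fun n => hx₀ _ (mem_range_self n)⟩
    have hδ : ∀ n, c n < δ :=
      WellFounded.min_mem (wellFounded_lt (α := W)) {x | ∀ n, c n < x} _
    have hδmin : ∀ γ, γ < δ → ∃ n, γ ≤ c n := by
      intro γ hγ
      by_contra hcon
      push Not at hcon
      exact WellFounded.not_lt_min (wellFounded_lt (α := W)) {x | ∀ n, c n < x}
        (show γ ∈ {x | ∀ n, c n < x} from hcon) hγ
    refine ⟨δ, hc0.trans (hδ 0), ⟨x, hc0.trans (hδ 0)⟩, ?_, ?_⟩
    · intro y hy
      obtain ⟨n, hn⟩ := hδmin y hy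
      exact ⟨c (n + 1), hn.trans_lt (hcm (Nat.lt_succ_self n)), hδ _⟩
    · intro n a ha hz y hy
      have hex : ∀ i, ∃ k, a i < c k := by
        intro i
        obtain ⟨k, hk⟩ := hδmin (a i) (ha i)
        exact ⟨k + 1, hk.trans_lt (hcm (Nat.lt_succ_self k))⟩
      choose k hk using hex
      have hall : ∀ i, a i < c (Finset.univ.sup k) := fun i =>
        (hk i).trans_le (hcm.monotone (Finset.le_sup (Finset.mem_univ i)))
      have := hg2 (c (Finset.univ.sup k)) n a hall hz y hy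
      rw [← hcs] at this
      exact this.trans (hδ _)
  choose nx hnx1 hnx2 using hCl
  -- a sequence of closed points
  obtain ⟨w₀⟩ : Nonempty W := by
    by_contra h
    rw [not_nonempty_iff] at h
    exact hu.not_countable inferInstance
  let e : ℕ → W := fun k => nx^[k + 1] w₀
  have hes : ∀ k, e (k + 1) = nx (e k) := fun k => Function.iterate_succ_apply' nx (k + 1) w₀
  have hecl : ∀ k, Cl (e k) := by
    intro k
    have : e k = nx (nx^[k] w₀) := Function.iterate_succ_apply' nx k w₀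
    rw [this]
    exact hnx2 _
  have hem : StrictMono e := strictMono_nat_of_lt_succ fun k => by rw [hes]; exact hnx1 _
  obtain ⟨t, ht⟩ := bdd hc hu (countable_range e)
  obtain ⟨δ, htδ, hδ⟩ : ∃ δ, t < δ ∧ Cl δ := ⟨nx t, hnx1 t, hnx2 t⟩
  have het : ∀ k, e k < t := fun k => ht _ (mem_range_self k)
  -- three consecutive closed points in one block
  obtain ⟨k, hk⟩ : ∃ k, b δ (e k) = b δ (e (k + 2)) := by
    by_contra hcon
    push Not at hcon
    have hmon : ∀ i j, i ≤ j → b δ (e i) ≤ b δ (e j) := fun i j hij =>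
      hb1 δ _ _ (hem.monotone hij) ((het j).trans htδ)
    have hgrow : ∀ j, j ≤ b δ (e (2 * j)) := by
      intro j
      induction j with
      | zero => exact Nat.zero_le _
      | succ j ih =>
        have h1 := hmon (2 * j) (2 * j + 2) (by omega)
        have h2 := hcon (2 * j)
        have h3 : 2 * (j + 1) = 2 * j + 2 := by ring
        rw [h3]
        omega
    have h4 := hgrow (b δ t + 1)
    have h5 := hb1 δ (e (2 * (b δ t + 1))) t (het _).le htδ
    omega
  -- a cofinal sequence of `δ`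
  obtain ⟨q, hq⟩ := (hc δ).exists_eq_range ⟨t, htδ⟩
  have hqlt : ∀ n, q n < δ := fun n => by
    have : q n ∈ Iio δ := hq ▸ mem_range_self n
    exact this
  have hlow : ∃ z, z < e k := (hecl k).1
  -- the play of One
  let a : ℕ → W := fun n => if n = 0 then e k else if n = 1 then e (k + 1) else
    max (e k) (q (n - 2))
  have ha0 : a 0 = e k := rfl
  have ha1 : a 1 = e (k + 1) := rfl
  have ha2 : ∀ n, q n ≤ a (n + 2) := by
    intro n
    have : a (n + 2) = max (e k) (q n) := by simp [a]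
    rw [this]
    exact le_max_right _ _
  have haek : ∀ n, e k ≤ a n := by
    intro n
    simp only [a]
    split_ifs
    · exact le_rfl
    · exact (hem (Nat.lt_succ_self k)).le
    · exact le_max_left _ _
  have haδ : ∀ n, a n < δ := by
    intro n
    simp only [a]
    split_ifs
    · exact (het _).trans htδ
    · exact (het _).trans htδ
    · exact max_lt ((het _).trans htδ) (hqlt _)
  have hacof : ∀ y, y < δ → ∃ n, y < a n := by
    intro y hy
    obtain ⟨y', h1, h2⟩ := hδ.2.1 y hy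
    have : y' ∈ range q := hq ▸ h2
    obtain ⟨n, rfl⟩ := this
    exact ⟨n + 2, h1.trans_le (ha2 n)⟩
  let G : ℕ → Set W := fun n => F n (fun i : Fin (n + 1) => a i)
  have hGge : ∀ n, ∀ x ∈ G n, a n ≤ x := by
    intro n x hx
    have := hFge n (fun i : Fin (n + 1) => a i) x hx
    simpa using this
  have hGlt : ∀ n, ∀ x ∈ G n, x < δ := by
    intro n x hx
    refine hδ.2.2 n (fun i : Fin (n + 1) => a i) (fun i => haδ i) ?_ x hx
    obtain ⟨z, hz⟩ := hlow
    exact ⟨z, by simpa using hz.trans_le (haek n)⟩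
  have hG0 : ∀ x ∈ G 0, x < e (k + 1) := by
    intro x hx
    refine (hecl (k + 1)).2.2 0 (fun i : Fin 1 => a i) ?_ ?_ x hx
    · intro i
      have : (i : ℕ) = 0 := by omega
      rw [this, ha0]
      exact hem (Nat.lt_succ_self k)
    · obtain ⟨z, hz⟩ := hlow
      exact ⟨z, by simpa [ha0] using hz⟩
  have hG1 : ∀ x ∈ G 1, x < e (k + 2) := by
    intro x hx
    refine (hecl (k + 2)).2.2 1 (fun i : Fin 2 => a i) ?_ ?_ x hx
    · intro i
      rcases (by omega : (i : ℕ) = 0 ∨ (i : ℕ) = 1) with h | h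
      · rw [h, ha0]
        exact hem (by omega)
      · rw [h, ha1]
        exact hem (by omega)
    · obtain ⟨z, hz⟩ := hlow
      exact ⟨z, by simpa [ha1] using hz.trans (hem (Nat.lt_succ_self k))⟩
  -- the play is won by One
  refine hwin (fun n => Iio (a n)) (fun n => ⟨a n, rfl⟩) ?_
  have hU : ∀ n, σ n (fun i : Fin (n + 1) => Iio (a i)) = (G n)ᶜ := fun n =>
    (compl_compl _).symm
  refine ⟨?_, ?_, ?_, ?_⟩
  · rintro _ ⟨n, rfl⟩
    exact (hleg' n (fun i : Fin (n + 1) => a i)).1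
  · rw [sUnion_range, eq_univ_iff_forall]
    intro x
    rw [mem_iUnion]
    simp only [hU, mem_compl_iff]
    rcases lt_or_ge x δ with hx | hx
    · obtain ⟨n, hn⟩ := hacof x hx
      exact ⟨n, fun h => absurd (hGge n x h) (not_le.2 hn)⟩
    · exact ⟨0, fun h => absurd (hGlt 0 x h) (not_lt.2 hx)⟩
  · rintro ⟨n, hn⟩
    exact (hleg' n (fun i : Fin (n + 1) => a i)).2.2 hn
  · rintro B ⟨δ', hB1, hB2⟩
    -- it is enough to find `n` with `G n` disjoint from `B`
    suffices h : ∃ n, ∀ x ∈ G n, x ∉ B by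
      obtain ⟨n, hn⟩ := h
      refine ⟨_, ⟨n, rfl⟩, ?_⟩
      simp only [hU]
      intro x hx hxG
      exact hn x hxG hx
    rcases lt_trichotomy δ' δ with h | h | h
    · obtain ⟨n, hn⟩ := hacof δ' h
      exact ⟨n, fun x hx hxB => absurd (hB1 hxB) (not_lt.2 (hn.le.trans (hGge n x hx)))⟩
    · subst h
      by_contra hcon
      push Not at hcon
      obtain ⟨x, hx, hxB⟩ := hcon 0
      obtain ⟨y, hy, hyB⟩ := hcon 1
      have hx1 : e k ≤ x := hGge 0 x hx
      have hx2 := hG0 x hx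
      have hy1 : e (k + 1) ≤ y := hGge 1 y hy
      have hy2 := hG1 y hy
      have hxy : x < y := hx2.trans_le hy1
      have b1 := hb1 δ' _ _ hx1 (hGlt 0 x hx)
      have b2 := hb1 δ' _ _ hxy.le (hGlt 1 y hy)
      have b3 := hb1 δ' _ _ hy2.le ((het (k + 2)).trans htδ)
      exact hxy.ne (hB2 hxB hyB (by omega))
    · have hfin : (B ∩ Iio δ).Finite := by
        refine Set.Finite.of_finite_image ((Set.finite_Iic (b δ' δ)).subset ?_)
          (hB2.mono inter_subset_left)
        rintro _ ⟨x, ⟨hxB, hxδ⟩, rfl⟩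
        exact hb1 δ' x δ (le_of_lt hxδ) h
      by_cases hne : (B ∩ Iio δ).Nonempty
      · obtain ⟨m, hm, hmax⟩ := hfin.exists_maximal hne
        obtain ⟨n, hn⟩ := hacof m hm.2
        refine ⟨n, fun x hx hxB => ?_⟩
        have h1 : m < x := hn.trans_le (hGge n x hx)
        exact absurd (hmax ⟨hxB, hGlt n x hx⟩ h1.le) (not_le.2 h1)
      · exact ⟨0, fun x hx hxB => hne ⟨x, hxB, hGlt 0 x hx⟩⟩

end Main

/-- **Theorem.** There are a `T₁` space `X`, an ideal base `𝒜` all of whose members lie in proper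
open subsets of `X`, and a family `ℬ`, such that player Two has a winning Markov strategy (hence
also a winning strategy) in `G₁(𝒩[𝒜], ¬Γ(X,ℬ))`, while Two has no winning strategy (hence no
winning Markov strategy) in `G₁(𝒩[𝒜], ¬𝒪(X,ℬ))`. In particular both parts of the equivalence for
player Two fail. -/
theorem result :
    (∃ (X : Type) (_ : TopologicalSpace X) (𝒜 ℬ : Set (Set X)),
      T1Space X ∧ IsIdealBase 𝒜 ∧ InProperOpen 𝒜 ∧
      TwoWinsMarkov 𝒜 (GammaCov ℬ) ∧ TwoWins 𝒜 (GammaCov ℬ) ∧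
      ¬ TwoWins 𝒜 (OCov ℬ) ∧ ¬ TwoWinsMarkov 𝒜 (OCov ℬ)) ∧
    ¬ (∀ (X : Type) (_ : TopologicalSpace X) (𝒜 ℬ : Set (Set X)),
      IsIdealBase 𝒜 → InProperOpen 𝒜 → EquivForTwo 𝒜 (GammaCov ℬ) (OCov ℬ)) := by
  have key : ∃ (X : Type) (_ : TopologicalSpace X) (𝒜 ℬ : Set (Set X)),
      T1Space X ∧ IsIdealBase 𝒜 ∧ InProperOpen 𝒜 ∧
      TwoWinsMarkov 𝒜 (GammaCov ℬ) ∧ TwoWins 𝒜 (GammaCov ℬ) ∧
      ¬ TwoWins 𝒜 (OCov ℬ) ∧ ¬ TwoWinsMarkov 𝒜 (OCov ℬ) := by
    obtain ⟨W, hlin, hwf, hc, hu⟩ := exists_omega_one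
    obtain ⟨b, hb1, hb2⟩ := exists_block hc
    have h1 := gamma_win hc hu hb2
    have h2 := no_win hc hu hb1
    refine ⟨W, cofTop W, famA W, famB b, t1_cofTop W, ⟨?_, ?_⟩, ?_, h1, ?_, h2, ?_⟩
    · obtain ⟨x⟩ : Nonempty W := by
        by_contra h
        rw [not_nonempty_iff] at h
        exact hu.not_countable inferInstance
      exact ⟨Iio x, x, rfl⟩
    · rintro _ ⟨x, rfl⟩ _ ⟨y, rfl⟩
      refine ⟨Iio (max x y), ⟨_, rfl⟩, ?_⟩
      rintro z (hz | hz)
      · exact lt_of_lt_of_le hz (le_max_left _ _)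
      · exact lt_of_lt_of_le hz (le_max_right _ _)
    · rintro _ ⟨x, rfl⟩
      refine ⟨{x}ᶜ, Or.inr ?_, ?_, ?_⟩
      · rw [compl_compl]; exact finite_singleton x
      · intro y hy
        exact (show y < x from hy).ne
      · intro h
        have : x ∈ ({x}ᶜ : Set W) := h ▸ mem_univ x
        exact this rfl
    · exact @twoWins_of_markov W (cofTop W) _ _ h1
    · intro h
      exact h2 (@twoWins_of_markov W (cofTop W) _ _ h)
  refine ⟨key, fun hall => ?_⟩
  obtain ⟨X, τ, 𝒜, ℬ, -, hid, hpr, -, hw, hn, -⟩ := key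
  exact hn (((hall X τ 𝒜 ℬ hid hpr).1).1 hw)

end Pool.Agent.Results.MP_953c35_gt.CoverGames
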